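import Pool.Agent.H15.ER.SQ
import Pool.Agent.H15.Defect.DefNat

/-!
# The growth of the defect as a number
-/

open TensorProduct Module Filter Topology

namespace Pool.Agent.H12.CX

open Pool.Agent.H12.Defect Pool.Agent.H15.Defect Pool.Agent.H14.RF Pool.Agent.H14.MM

universe u

section defs

variable (k : Type u) [Field k] (A : Type u) [CommRing A] [Algebra k A]

/-- `deg Γ ^ n + δ(Γ ^ n)` for `Γ = Spec A`: the least degree of a smoothable finite scheme which
contains `Γ ^ n`. -/
noncomputable def cost (n : ℕ) : ℕ :=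
  finrank k A ^ n + (defect k (⨂[k] _ : Fin n, A)).toNat

/-- The growth `L(Γ)` of `Γ = Spec A`: the infimum over `n ≥ 1` of
`(deg Γ ^ n + δ(Γ ^ n)) ^ (1 / n)`. -/
noncomputable def growth : ℝ :=
  ⨅ n : ℕ, (cost k A (n + 1) : ℝ) ^ (1 / ((n + 1 : ℕ) : ℝ))

end defs

section basic

variable {k : Type u} [Field k] {A B : Type u} [CommRing A] [Algebra k A] [CommRing B]
  [Algebra k B]

theorem exists_surjective_add (m n : ℕ) :
    ∃ F : (⨂[k] _ : Fin m, A) ⊗[k] (⨂[k] _ : Fin n, A) →ₐ[k] (⨂[k] _ : Fin (m + n), A),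
      Function.Surjective F := by
  refine ⟨Algebra.TensorProduct.productMap
    (prodHom fun i => PiTensorProduct.singleAlgHom (R := k)
      (A := fun _ : Fin (m + n) => A) (Fin.castAdd n i))
    (prodHom fun i => PiTensorProduct.singleAlgHom (R := k)
      (A := fun _ : Fin (m + n) => A) (Fin.natAdd m i)),
    surjective_of_single _ fun i a => ?_⟩
  refine Fin.addCases (fun i => ?_) (fun i => ?_) i
  · refine ⟨(PiTensorProduct.singleAlgHom (R := k) (A := fun _ : Fin m => A) i a) ⊗ₜ 1, ?_⟩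
    rw [Algebra.TensorProduct.productMap_apply_tmul, prodHom_single, map_one, mul_one]
  · refine ⟨1 ⊗ₜ (PiTensorProduct.singleAlgHom (R := k) (A := fun _ : Fin n => A) i a), ?_⟩
    rw [Algebra.TensorProduct.productMap_apply_tmul, prodHom_single, map_one, one_mul]

variable [Module.Finite k A]

theorem dle_cost {D : ℕ} (h : Dle k A D) (n : ℕ) : Dle k (⨂[k] _ : Fin n, A) (cost k A n) := by
  have h1 := dle_defect (h.pow n)
  rwa [finrank_power] at h1

theorem cost_le {n N : ℕ} (h : Dle k (⨂[k] _ : Fin n, A) N) : cost k A n ≤ N := by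
  have h1 := (defect_eq h).2.2
  rwa [finrank_power] at h1

theorem cost_mul {D : ℕ} (h : Dle k A D) (m n : ℕ) :
    cost k A (m + n) ≤ cost k A m * cost k A n := by
  obtain ⟨F, hF⟩ := exists_surjective_add (k := k) (A := A) m n
  exact cost_le (((dle_cost h m).tensor (dle_cost h n)).of_surjective F hF)

variable [Nontrivial A]

omit [Module.Finite k A] [Nontrivial A] in
theorem pow_le_cost (n : ℕ) : finrank k A ^ n ≤ cost k A n := Nat.le_add_right _ _

theorem one_le_cost (n : ℕ) : 1 ≤ cost k A n :=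
  le_trans (Nat.one_le_pow _ _ (Module.finrank_pos (R := k) (M := A))) (pow_le_cost n)

omit [Module.Finite k A] [Nontrivial A] in
theorem bddBelow_terms : BddBelow (Set.range fun n : ℕ =>
    (cost k A (n + 1) : ℝ) ^ (1 / ((n + 1 : ℕ) : ℝ))) :=
  ⟨0, by rintro _ ⟨n, rfl⟩; positivity⟩

theorem growth_le_term {n : ℕ} (hn : 0 < n) :
    growth k A ≤ (cost k A n : ℝ) ^ (1 / (n : ℝ)) := by
  obtain ⟨m, rfl⟩ : ∃ m, n = m + 1 := ⟨n - 1, by omega⟩
  exact ciInf_le bddBelow_terms m

/-- The growth is a limit. -/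
theorem tendsto_growth {D : ℕ} (h : Dle k A D) :
    Tendsto (fun n : ℕ => (cost k A n : ℝ) ^ (1 / (n : ℝ))) atTop (𝓝 (growth k A)) := by
  have hc : ∀ n, (0 : ℝ) < cost k A n := fun n => by exact_mod_cast one_le_cost n
  have hsub : Subadditive fun n => Real.log (cost k A n) := by
    intro m n
    rw [← Real.log_mul (hc m).ne' (hc n).ne']
    apply Real.log_le_log (hc _)
    exact_mod_cast cost_mul h m n
  have hbdd : BddBelow (Set.range fun n : ℕ => Real.log (cost k A n) / n) := by
    refine ⟨0, ?_⟩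
    rintro _ ⟨n, rfl⟩
    have h1 : 0 ≤ Real.log (cost k A n) :=
      Real.log_nonneg (by exact_mod_cast one_le_cost n)
    positivity
  have h1 := hsub.tendsto_lim hbdd
  have h2 : ∀ n : ℕ, 0 < n →
      (cost k A n : ℝ) ^ (1 / (n : ℝ)) = Real.exp (Real.log (cost k A n) / n) := by
    intro n _
    rw [Real.rpow_def_of_pos (hc n)]
    congr 1
    ring
  have h3 : Tendsto (fun n : ℕ => (cost k A n : ℝ) ^ (1 / (n : ℝ))) atTop
      (𝓝 (Real.exp hsub.lim)) := by
    refine ((Real.continuous_exp.tendsto _).comp h1).congr' ?_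
    filter_upwards [eventually_gt_atTop 0] with n hn
    rw [Function.comp_apply, h2 n hn]
  have h4 : growth k A = Real.exp hsub.lim := by
    apply le_antisymm
    · refine ge_of_tendsto h3 ?_
      filter_upwards [eventually_gt_atTop 0] with n hn
      exact growth_le_term hn
    · refine le_ciInf fun n => ?_
      rw [h2 (n + 1) (Nat.succ_pos n)]
      exact Real.exp_le_exp.mpr (hsub.lim_le_div hbdd (Nat.succ_ne_zero n))
  rw [h4]
  exact h3

omit [Module.Finite k A] in
theorem finrank_le_growth : (finrank k A : ℝ) ≤ growth k A := by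
  refine le_ciInf fun n => ?_
  have h1 : ((finrank k A : ℝ) ^ (n + 1 : ℕ)) ^ (1 / ((n + 1 : ℕ) : ℝ)) = finrank k A := by
    rw [← Real.rpow_natCast, ← Real.rpow_mul (Nat.cast_nonneg _), mul_one_div_cancel
      (by positivity), Real.rpow_one]
  rw [← h1]
  apply Real.rpow_le_rpow (by positivity) _ (by positivity)
  exact_mod_cast pow_le_cost (n + 1)

theorem growth_pos : 0 < growth k A :=
  lt_of_lt_of_le (by exact_mod_cast Module.finrank_pos (R := k) (M := A)) finrank_le_growth

theorem one_le_growth : 1 ≤ growth k A :=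
  le_trans (by exact_mod_cast Module.finrank_pos (R := k) (M := A)) finrank_le_growth

/-- Growth bounds. -/
theorem bd_growth {D : ℕ} (h : Dle k A D) : Bd k A (growth k A) := by
  intro ρ hρ
  have hρ0 : 0 < ρ := growth_pos.trans hρ
  have hρ1 : 1 < ρ := one_le_growth.trans_lt hρ
  obtain ⟨n₀, hn₀⟩ := (((tendsto_growth h).eventually (gt_mem_nhds hρ)).and
    (eventually_gt_atTop 0)).exists_forall_of_atTop
  have h1 : ∀ n ≥ n₀, (cost k A n : ℝ) ≤ ρ ^ n := by
    intro n hn
    obtain ⟨h2, h3⟩ := hn₀ n hn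
    have h4 : ((cost k A n : ℝ) ^ (1 / (n : ℝ))) ^ n = cost k A n := by
      rw [← Real.rpow_natCast, ← Real.rpow_mul (Nat.cast_nonneg _), one_div_mul_cancel
        (by positivity), Real.rpow_one]
    rw [← h4]
    exact pow_le_pow_left₀ (by positivity) h2.le n
  refine ⟨1 + ∑ i ∈ Finset.range n₀, (cost k A i : ℝ), fun n => ⟨cost k A n, dle_cost h n, ?_⟩⟩
  have hS : 0 ≤ ∑ i ∈ Finset.range n₀, (cost k A i : ℝ) :=
    Finset.sum_nonneg fun i _ => Nat.cast_nonneg _
  have hp : 1 ≤ ρ ^ n := one_le_pow₀ hρ1.le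
  rcases Nat.lt_or_ge n n₀ with hn | hn
  · have h5 : (cost k A n : ℝ) ≤ ∑ i ∈ Finset.range n₀, (cost k A i : ℝ) :=
      Finset.single_le_sum (f := fun i => (cost k A i : ℝ)) (fun i _ => Nat.cast_nonneg _)
        (Finset.mem_range.mpr hn)
    nlinarith
  · have h6 := h1 n hn
    nlinarith

/-- Growth bounds. -/
theorem growth_le_of_bd {r : ℝ} (h : Bd k A r) : growth k A ≤ r := by
  refine le_of_forall_gt_imp_ge_of_dense fun ρ hρ => ?_
  obtain ⟨C, hC⟩ := h ρ hρ
  have hC' : ∀ n, (cost k A n : ℝ) ≤ C * ρ ^ n := by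
    intro n
    obtain ⟨N, hN, hle⟩ := hC n
    exact le_trans (by exact_mod_cast cost_le hN) hle
  have hc : ∀ n, (1 : ℝ) ≤ cost k A n := fun n => by exact_mod_cast one_le_cost n
  have hC0 : 0 < C := by
    have h1 := (hc 0).trans (hC' 0)
    rw [pow_zero, mul_one] at h1
    linarith
  have hρ0 : 0 < ρ := by
    have h1 := (hc 1).trans (hC' 1)
    rw [pow_one] at h1
    by_contra hcon
    push Not at hcon
    nlinarith
  have h2 : Tendsto (fun n : ℕ => C ^ (1 / (n : ℝ)) * ρ) atTop (𝓝 (C ^ (0 : ℝ) * ρ)) := by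
    apply Tendsto.mul_const
    exact (Real.continuous_const_rpow hC0.ne').continuousAt.tendsto.comp
      tendsto_one_div_atTop_nhds_zero_nat
  rw [Real.rpow_zero, one_mul] at h2
  refine ge_of_tendsto h2 ?_
  filter_upwards [eventually_gt_atTop 0] with n hn
  refine (growth_le_term hn).trans ?_
  calc (cost k A n : ℝ) ^ (1 / (n : ℝ)) ≤ (C * ρ ^ n) ^ (1 / (n : ℝ)) :=
        Real.rpow_le_rpow (Nat.cast_nonneg _) (hC' n) (by positivity)
    _ = C ^ (1 / (n : ℝ)) * ρ := by
        rw [Real.mul_rpow hC0.le (by positivity), ← Real.rpow_natCast, ← Real.rpow_mul hρ0.le,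
          mul_one_div_cancel (by positivity), Real.rpow_one]

theorem growth_le_iff {D : ℕ} (h : Dle k A D) {r : ℝ} : growth k A ≤ r ↔ Bd k A r :=
  ⟨fun h1 => (bd_growth h).mono h1, growth_le_of_bd⟩

theorem growth_le_of_dle {D : ℕ} (h : Dle k A D) : growth k A ≤ D :=
  growth_le_of_bd (Pool.Agent.H15.ER.bd_of_dle h)

/-- Smoothable schemes. -/
theorem growth_of_smoothable (h : IsSmoothable k A) : growth k A = finrank k A :=
  le_antisymm (growth_le_of_dle (IsSmoothable.dle h)) finrank_le_growth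

/-- The limit of Q1 in terms of the growth. -/
theorem growth_le_rpow_iff {D : ℕ} (h : Dle k A D) (α : A →ₐ[k] k) {e : ℝ} (he : 0 ≤ e) :
    growth k A ≤ (finrank k A : ℝ) ^ (1 + e) ↔
      ∀ ε : ℝ, e < ε → Tendsto (growthRatio k A ε) atTop (𝓝 0) :=
  ⟨fun h1 _ hε => ((growth_le_iff h).mp h1).tendsto hε,
    fun h1 => growth_le_of_bd (Bd.of_tendsto he α h1)⟩

theorem growth_eq_finrank_iff {D : ℕ} (h : Dle k A D) (α : A →ₐ[k] k) :
    growth k A = finrank k A ↔
      ∀ ε : ℝ, 0 < ε → Tendsto (growthRatio k A ε) atTop (𝓝 0) := by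
  rw [← growth_le_rpow_iff h α le_rfl, add_zero, Real.rpow_one]
  exact ⟨fun h1 => h1.le, fun h1 => le_antisymm h1 finrank_le_growth⟩

end basic

section ops

variable {k : Type u} [Field k] {A B : Type u} [CommRing A] [Algebra k A] [CommRing B]
  [Algebra k B] [Module.Finite k A] [Module.Finite k B] [Nontrivial A] [Nontrivial B]

theorem growth_tensor_le [Nontrivial (A ⊗[k] B)] {D E : ℕ} (hA : Dle k A D) (hB : Dle k B E) :
    growth k (A ⊗[k] B) ≤ growth k A * growth k B :=
  growth_le_of_bd ((bd_growth hA).tensor growth_pos growth_pos (bd_growth hB))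

theorem growth_prod_le {D E : ℕ} (hA : Dle k A D) (hB : Dle k B E) :
    growth k (A × B) ≤ growth k A + growth k B :=
  growth_le_of_bd ((bd_growth hA).prod (bd_growth hB))

end ops

end Pool.Agent.H12.CX
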