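import Pool.Agent.H15.Defect.Arc
import Pool.Agent.H15.Defect.Dle

/-!
# The schemes `Z_b`: the first order neighbourhood of a point of affine `b`-space is smoothable
-/

open TensorProduct Module MvPolynomial

namespace Pool.Agent.H12.CX

open Pool.Agent.H12.Defect Pool.Agent.H15.Defect

universe u

/-- the coordinate ring `k[y_1, …, y_b]/(y)²` of `Z_b` -/
abbrev Zb (k : Type u) [Field k] (b : ℕ) : Type u := TrivSqZeroExt k (Fin b → k)

section general

variable {k : Type u} [Field k] {A : Type u} [CommRing A] [Algebra k A]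

theorem isSmoothable_of_dle [Module.Finite k A] (h : Dle k A (finrank k A)) :
    IsSmoothable k A := by
  obtain ⟨B, i1, i2, h1, ⟨g, hg⟩, h3⟩ := h
  have := IsSmoothable.finite h1
  have hle : finrank k A ≤ finrank k B := LinearMap.finrank_le_finrank_of_surjective
    (f := g.toLinearMap) hg
  have hinj : Function.Injective g :=
    (LinearMap.injective_iff_surjective_of_finrank_eq_finrank (f := g.toLinearMap)
      (le_antisymm h3 hle)).mpr hg
  exact IsSmoothable.of_equiv (AlgEquiv.ofBijective g ⟨hinj, hg⟩) h1

end general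

variable {k : Type u} [Field k]

/-- `Z_b` as a vector space -/
noncomputable def lin (k : Type u) [Field k] (b : ℕ) : Zb k b ≃ₗ[k] k × (Fin b → k) :=
  { toFun := fun z => (z.fst, z.snd)
    invFun := fun p => TrivSqZeroExt.inl p.1 + TrivSqZeroExt.inr p.2
    left_inv := fun z => TrivSqZeroExt.inl_fst_add_inr_snd_eq z
    right_inv := fun p => by ext <;> simp
    map_add' := fun p q => by
      ext <;> simp
    map_smul' := fun r p => by
      ext <;> simp }

instance finite_zb (b : ℕ) : Module.Finite k (Zb k b) :=
  Module.Finite.equiv (lin k b).symm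

theorem finrank_zb (b : ℕ) : finrank k (Zb k b) = b + 1 := by
  rw [(lin k b).finrank_eq]
  simp [add_comm]

/-- the limit of the functions on the points `0, X e_i` -/
noncomputable def phi (k : Type u) [Field k] (b : ℕ) :
    MvPolynomial (Fin b) (PowerSeries k) →+* Zb k b :=
  eval₂Hom ((algebraMap k (Zb k b)).comp (PowerSeries.constantCoeff (R := k)))
    fun i => TrivSqZeroExt.inr (Pi.single i 1)

/-- evaluation at the points `0, X e_i` -/
noncomputable def evp (k : Type u) [Field k] (b : ℕ) :
    MvPolynomial (Fin b) (PowerSeries k) →ₐ[PowerSeries k] (Option (Fin b) → PowerSeries k) :=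
  aeval fun i t => if t = some i then PowerSeries.X else 0

theorem phi_C (b : ℕ) (r : PowerSeries k) :
    phi k b (C r) = TrivSqZeroExt.inl (PowerSeries.constantCoeff (R := k) r) := by
  rw [phi, eval₂Hom_C]
  rfl

theorem phi_X (b : ℕ) (i : Fin b) :
    phi k b (X i) = TrivSqZeroExt.inr (Pi.single i 1) := by
  rw [phi, eval₂Hom_X']

theorem evp_C (b : ℕ) (r : PowerSeries k) (t : Option (Fin b)) : evp k b (C r) t = r := by
  have h1 : evp k b (C r) = algebraMap (PowerSeries k) _ r := (evp k b).commutes r
  rw [h1]
  rfl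

theorem evp_X (b : ℕ) (i : Fin b) (t : Option (Fin b)) :
    evp k b (X i) t = if t = some i then PowerSeries.X else 0 := by
  rw [evp, aeval_X]

theorem exists_q (b : ℕ) (p : MvPolynomial (Fin b) (PowerSeries k)) (i : Fin b) :
    ∃ q : PowerSeries k, evp k b p (some i) = evp k b p none + PowerSeries.X * q ∧
      PowerSeries.constantCoeff (R := k) q = (phi k b p).snd i ∧
      PowerSeries.constantCoeff (R := k) (evp k b p none) = (phi k b p).fst := by
  induction p using MvPolynomial.induction_on with
  | C r =>
    refine ⟨0, ?_, ?_, ?_⟩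
    · rw [evp_C, evp_C, mul_zero, add_zero]
    · rw [phi_C, TrivSqZeroExt.snd_inl, map_zero]
      rfl
    · rw [evp_C, phi_C, TrivSqZeroExt.fst_inl]
  | add p p' hp hp' =>
    obtain ⟨q, h1, h2, h3⟩ := hp
    obtain ⟨q', h1', h2', h3'⟩ := hp'
    refine ⟨q + q', ?_, ?_, ?_⟩
    · rw [map_add, Pi.add_apply, Pi.add_apply, h1, h1']
      ring
    · rw [map_add, map_add, h2, h2', TrivSqZeroExt.snd_add, Pi.add_apply]
    · rw [map_add, Pi.add_apply, map_add, h3, h3', map_add, TrivSqZeroExt.fst_add]
  | mul_X p j hp =>
    obtain ⟨q, h1, h2, h3⟩ := hp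
    refine ⟨if i = j then evp k b p (some i) else 0, ?_, ?_, ?_⟩
    · rw [map_mul, Pi.mul_apply, Pi.mul_apply, evp_X, evp_X]
      by_cases hij : i = j
      · subst hij
        simp [mul_comm]
      · have : ¬ (some i = some j) := by simpa using hij
        simp [hij]
    · rw [map_mul, phi_X, TrivSqZeroExt.snd_mul, TrivSqZeroExt.snd_inr, TrivSqZeroExt.fst_inr]
      by_cases hij : i = j
      · subst hij
        rw [if_pos rfl, h1, map_add, h3, map_mul, PowerSeries.constantCoeff_X, zero_mul, add_zero]
        simp
      · rw [if_neg hij, map_zero]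
        simp [Pi.single_eq_of_ne hij]
    · rw [map_mul, Pi.mul_apply, evp_X, map_mul, map_mul, phi_X, TrivSqZeroExt.fst_mul,
        TrivSqZeroExt.fst_inr]
      simp

theorem phi_surjective (b : ℕ) : Function.Surjective (phi k b) := by
  intro z
  refine ⟨C (PowerSeries.C z.fst) + ∑ i, C (PowerSeries.C (z.snd i)) * X i, ?_⟩
  rw [map_add, map_sum, phi_C, PowerSeries.constantCoeff_C]
  simp only [map_mul, phi_C, phi_X, PowerSeries.constantCoeff_C]
  ext i
  · simp [TrivSqZeroExt.fst_sum]
  · rw [TrivSqZeroExt.snd_add, TrivSqZeroExt.snd_inl, TrivSqZeroExt.snd_sum]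
    simp only [TrivSqZeroExt.snd_mul, TrivSqZeroExt.fst_inl, TrivSqZeroExt.snd_inr,
      TrivSqZeroExt.fst_inr, TrivSqZeroExt.snd_inl]
    simp [Finset.sum_apply, Pi.single_apply]

theorem dle_zb (b : ℕ) : Dle k (Zb k b) (b + 1) := by
  have h1 : Dle k (Zb k b) (Fintype.card (Option (Fin b))) := by
    refine dle_of_arc (evp k b) (phi k b) (phi_surjective b) ?_ ?_ ?_
    · rw [MvPolynomial.algebraMap_eq, phi_C, PowerSeries.constantCoeff_X]
      simp
    · intro r
      rw [MvPolynomial.algebraMap_eq, phi_C, PowerSeries.constantCoeff_C]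
      rfl
    · intro p hp
      ext i
      · by_cases hb : b = 0
        · subst hb
          have h2 : p = C (p.coeff 0) := by
            rw [← MvPolynomial.eq_C_of_isEmpty]
          rw [h2] at hp ⊢
          have h3 := congrFun hp none
          rw [evp_C] at h3
          rw [phi_C, h3]
          simp
        · obtain ⟨q, -, -, h3⟩ := exists_q b p ⟨0, by omega⟩
          rw [← h3, hp]
          simp
      · obtain ⟨q, h1, h2, h3⟩ := exists_q b p i
        rw [← h2]
        rw [hp] at h1
        simp only [Pi.zero_apply, zero_add] at h1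
        have h4 : q = 0 := by
          rcases mul_eq_zero.mp h1.symm with h | h
          · exact absurd h PowerSeries.X_ne_zero
          · exact h
        rw [h4]
        simp
  simpa using h1

theorem isSmoothable_zb (b : ℕ) : IsSmoothable k (Zb k b) :=
  isSmoothable_of_dle (by rw [finrank_zb]; exact dle_zb b)

end Pool.Agent.H12.CX
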