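import Pool.Agent.H12.CX.Union
import Pool.Agent.H12.CX.Zb

/-!
# Catalytic exactness: the growth part
-/

open TensorProduct Module Filter Topology

namespace Pool.Agent.H12.CX

open Pool.Agent.H12.Defect Pool.Agent.H15.Defect Pool.Agent.H14.RF Pool.Agent.H14.MM

universe u

/-- the asymptotic smoothability of the products with `Z_b` -/
def CatK (k : Type u) [Field k] : Prop :=
  ∀ (A : Type u) [CommRing A] [Algebra k A] [Module.Finite k A] [Nontrivial A] (η : ℝ), 0 < η →
    ∀ᶠ b : ℕ in atTop, ∃ N : ℕ, Dle k (A ⊗[k] Zb k b) N ∧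
      (N : ℝ) ≤ (1 + η) * ((finrank k A : ℝ) * (b + 1))

section aux

variable {k : Type u} [Field k]

theorem nontrivial_tensor (A B : Type u) [CommRing A] [Algebra k A] [CommRing B] [Algebra k B]
    [Module.Finite k A] [Module.Finite k B] [Nontrivial A] [Nontrivial B] :
    Nontrivial (A ⊗[k] B) := by
  apply Module.nontrivial_of_finrank_pos (R := k)
  rw [Module.finrank_tensorProduct]
  exact Nat.mul_pos Module.finrank_pos Module.finrank_pos

theorem tensor_bounds {A B : Type u} [CommRing A] [Algebra k A] [CommRing B] [Algebra k B]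
    [Module.Finite k A] [Module.Finite k B] [Nontrivial A] [Nontrivial B] {N : ℕ}
    (hN : Dle k (A ⊗[k] B) N) :
    growth k (A ⊗[k] B) ≤ N ∧ (finrank k A : ℝ) * finrank k B ≤ growth k (A ⊗[k] B) := by
  have hnt : Nontrivial (A ⊗[k] B) := nontrivial_tensor A B
  have h3 : ((finrank k (A ⊗[k] B) : ℕ) : ℝ) ≤ growth k (A ⊗[k] B) := finrank_le_growth
  rw [Module.finrank_tensorProduct] at h3
  push_cast at h3
  exact ⟨growth_le_of_dle hN, h3⟩

theorem defect_bounds {A B : Type u} [CommRing A] [Algebra k A] [CommRing B] [Algebra k B]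
    [Module.Finite k A] [Module.Finite k B] {N : ℕ}
    (hN : Dle k (A ⊗[k] B) N) :
    (finrank k A : ℝ) * finrank k B + ((defect k (A ⊗[k] B)).toNat : ℝ) ≤ N := by
  have h2 := (defect_eq hN).2.2
  rw [Module.finrank_tensorProduct] at h2
  exact_mod_cast h2

theorem union_bounds {A B : Type u} [CommRing A] [Algebra k A] [CommRing B] [Algebra k B]
    [Module.Finite k A] [Module.Finite k B] [Nontrivial A] [Nontrivial B] {N D z : ℕ}
    (hN : Dle k (A ⊗[k] B) N) (hA : Dle k A D) (hB : Dle k B z) (hz : 0 < z)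
    (hND : D ^ 2 ≤ N) :
    growth k (A × B) ≤ (N : ℝ) / z + z ∧
      (finrank k A : ℝ) + finrank k B ≤ growth k (A × B) := by
  have h3 : ((finrank k (A × B) : ℕ) : ℝ) ≤ growth k (A × B) := finrank_le_growth
  rw [Module.finrank_prod] at h3
  push_cast at h3
  exact ⟨growth_le_of_bd (bd_union hN hA hB hz hND), h3⟩

/-- An estimate. -/
theorem est₁ {η : ℝ} (hη : 0 < η) {b : ℕ} {g d N : ℝ} (h2 : g ≤ N) (h3 : d * (b + 1) ≤ g)
    (hle : N ≤ (1 + (η / (2 * d))) * (d * (b + 1))) (hA : 0 < d) :
    |g / (b + 1) - d| < η := by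
  have hb1 : (0 : ℝ) < (b : ℝ) + 1 := by positivity
  have h4 : d ≤ g / (b + 1) := by
    rwa [le_div_iff₀ hb1]
  have h5 : g / (b + 1) ≤ d + η / 2 := by
    rw [div_le_iff₀ hb1]
    refine h2.trans (hle.trans (le_of_eq ?_))
    field_simp
  rw [abs_of_nonneg (by linarith)]
  linarith

/-- An estimate. -/
theorem est₂ {η : ℝ} (hη : 0 < η) {b : ℕ} {g d N : ℝ} (h2 : g ≤ N / (b + 1) + (b + 1))
    (h3 : d + (b + 1) ≤ g) (hle : N ≤ (1 + (η / (2 * d))) * (d * (b + 1))) (hA : 0 < d) :
    |g - (b + 1) - d| < η := by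
  have hb1 : (0 : ℝ) < (b : ℝ) + 1 := by positivity
  have h5 : N / (b + 1) ≤ d + η / 2 := by
    rw [div_le_iff₀ hb1]
    refine (hle.trans (le_of_eq ?_))
    field_simp
  rw [abs_of_nonneg (by linarith)]
  linarith

/-- An estimate. -/
theorem est₃ {η : ℝ} (hη : 0 < η) {b : ℕ} {x d N : ℝ} (h2 : d * (b + 1) + x ≤ N) (hx : 0 ≤ x)
    (hle : N ≤ (1 + η / 2) * (d * (b + 1))) (hA : 0 < d) :
    |x / (d * (b + 1)) - 0| < η := by
  have h4 : 0 < d * ((b : ℝ) + 1) := by positivity
  rw [sub_zero, abs_of_nonneg (by positivity), div_lt_iff₀ h4]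
  nlinarith

theorem eq_of_frequently {f : ℕ → ℝ} {x c : ℝ} (h : Tendsto f atTop (𝓝 x))
    (h' : ∃ᶠ n in atTop, f n = c) : c = x := by
  by_contra hne
  have h1 : ∀ᶠ n in atTop, f n ≠ c := h.eventually_ne (fun h => hne h.symm)
  obtain ⟨n, h2, h3⟩ := (h'.and_eventually h1).exists
  exact h3 h2

theorem CatK.exists_dle (HK : CatK k) (A : Type u) [CommRing A] [Algebra k A]
    [Module.Finite k A] [Nontrivial A] : ∃ D, Dle k A D := by
  obtain ⟨b, N, hN, -⟩ := (HK A 1 one_pos).exists
  refine ⟨N, ?_⟩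
  have h1 : Dle k (A ⊗[k] k) N := hN.of_surjective
    (Algebra.TensorProduct.map (AlgHom.id k A) (TrivSqZeroExt.fstHom k k (Fin b → k)))
    (TensorProduct.map_surjective Function.surjective_id
      (fun r => ⟨TrivSqZeroExt.inl r, by simp⟩))
  exact h1.of_equiv (Algebra.TensorProduct.rid k k A)

end aux

section main

variable {k : Type u} [Field k] (HK : CatK k) (A : Type u) [CommRing A] [Algebra k A]
  [Module.Finite k A] [Nontrivial A]

include HK

theorem defect_part : (∀ b, defect k (A ⊗[k] Zb k b) ≠ ⊤) ∧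
    Tendsto (fun b : ℕ => ((defect k (A ⊗[k] Zb k b)).toNat : ℝ) /
      ((finrank k A : ℝ) * (b + 1))) atTop (𝓝 0) := by
  obtain ⟨D, hD⟩ := HK.exists_dle A
  refine ⟨fun b => (defect_eq (hD.tensor (dle_zb b))).1, ?_⟩
  have hA : (0 : ℝ) < finrank k A := by exact_mod_cast Module.finrank_pos (R := k) (M := A)
  rw [Metric.tendsto_nhds]
  intro η hη
  filter_upwards [HK A (η / 2) (by linarith)] with b hb
  obtain ⟨N, hN, hle⟩ := hb
  have h2 := defect_bounds hN
  rw [finrank_zb, Nat.cast_add, Nat.cast_one] at h2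
  rw [Real.dist_eq]
  exact est₃ hη h2 (Nat.cast_nonneg _) hle hA

theorem product_limit :
    Tendsto (fun b : ℕ => growth k (A ⊗[k] Zb k b) / (b + 1)) atTop (𝓝 (finrank k A)) := by
  have hA : (0 : ℝ) < finrank k A := by exact_mod_cast Module.finrank_pos (R := k) (M := A)
  rw [Metric.tendsto_nhds]
  intro η hη
  filter_upwards [HK A (η / (2 * finrank k A)) (by positivity)] with b hb
  obtain ⟨N, hN, hle⟩ := hb
  obtain ⟨h2, h3⟩ := tensor_bounds hN
  rw [finrank_zb, Nat.cast_add, Nat.cast_one] at h3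
  rw [Real.dist_eq]
  exact est₁ hη h2 h3 hle hA

theorem union_limit :
    Tendsto (fun b : ℕ => growth k (A × Zb k b) - (b + 1)) atTop (𝓝 (finrank k A)) := by
  have hA : (0 : ℝ) < finrank k A := by exact_mod_cast Module.finrank_pos (R := k) (M := A)
  obtain ⟨D, hD⟩ := HK.exists_dle A
  rw [Metric.tendsto_nhds]
  intro η hη
  filter_upwards [HK A (η / (2 * finrank k A)) (by positivity), eventually_ge_atTop (D ^ 2)]
    with b hb hbD
  obtain ⟨N, hN, hle⟩ := hb
  have hND : D ^ 2 ≤ N := by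
    have h2 := defect_bounds hN
    rw [finrank_zb] at h2
    have h3 : finrank k A * (b + 1) + (defect k (A ⊗[k] Zb k b)).toNat ≤ N := by
      exact_mod_cast h2
    have h4 : 1 * (b + 1) ≤ finrank k A * (b + 1) :=
      Nat.mul_le_mul_right _ (Module.finrank_pos (R := k) (M := A))
    omega
  obtain ⟨h2, h3⟩ := union_bounds hN hD (dle_zb b) (Nat.succ_pos b) hND
  rw [finrank_zb] at h3
  rw [Nat.cast_add, Nat.cast_one] at h2 h3
  rw [Real.dist_eq]
  exact est₂ hη h2 h3 hle hA

variable [IsAlgClosed k]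

/-- The equivalences for one scheme. -/
theorem tfae_one : List.TFAE [
    ∀ ε : ℝ, 0 < ε → Tendsto (growthRatio k A ε) atTop (𝓝 0),
    growth k A = finrank k A,
    ∀ (Z : Type u) [CommRing Z] [Algebra k Z] [Nontrivial Z], IsSmoothable k Z →
      growth k (A ⊗[k] Z) = growth k A * finrank k Z,
    ∀ (Z : Type u) [CommRing Z] [Algebra k Z] [Nontrivial Z], IsSmoothable k Z →
      growth k (A × Z) = growth k A + finrank k Z,
    ∃ᶠ b : ℕ in atTop, growth k (A ⊗[k] Zb k b) = growth k A * (b + 1),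
    ∃ᶠ b : ℕ in atTop, growth k (A × Zb k b) = growth k A + (b + 1)] := by
  obtain ⟨D, hD⟩ := HK.exists_dle A
  obtain ⟨α⟩ := exists_point (k := k) (A := A)
  tfae_have 1 ↔ 2 := (growth_eq_finrank_iff hD α).symm
  tfae_have 2 → 3 := by
    intro h Z _ _ _ hZ
    have := IsSmoothable.finite hZ
    have hnt : Nontrivial (A ⊗[k] Z) := nontrivial_tensor A Z
    apply le_antisymm
    · rw [← growth_of_smoothable hZ]
      exact growth_tensor_le hD (IsSmoothable.dle hZ)
    · have h1 : ((finrank k (A ⊗[k] Z) : ℕ) : ℝ) ≤ growth k (A ⊗[k] Z) := finrank_le_growth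
      rw [Module.finrank_tensorProduct] at h1
      push_cast at h1
      rwa [h]
  tfae_have 2 → 4 := by
    intro h Z _ _ _ hZ
    have := IsSmoothable.finite hZ
    apply le_antisymm
    · rw [← growth_of_smoothable hZ]
      exact growth_prod_le hD (IsSmoothable.dle hZ)
    · have h1 : ((finrank k (A × Z) : ℕ) : ℝ) ≤ growth k (A × Z) := finrank_le_growth
      rw [Module.finrank_prod] at h1
      push_cast at h1
      rwa [h]
  tfae_have 3 → 5 := by
    intro h
    apply Frequently.of_forall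
    intro b
    rw [h (Zb k b) (isSmoothable_zb b), finrank_zb]
    push_cast
    rfl
  tfae_have 4 → 6 := by
    intro h
    apply Frequently.of_forall
    intro b
    rw [h (Zb k b) (isSmoothable_zb b), finrank_zb]
    push_cast
    rfl
  tfae_have 5 → 2 := by
    intro h
    refine eq_of_frequently (product_limit HK A) (h.mono fun b hb => ?_)
    rw [hb]
    field_simp
  tfae_have 6 → 2 := by
    intro h
    refine eq_of_frequently (union_limit HK A) (h.mono fun b hb => ?_)
    rw [hb]
    ring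
  tfae_finish

omit A in
/-- The equivalences for all schemes. -/
theorem tfae_all : List.TFAE [
    ∀ (A : Type u) [CommRing A] [Algebra k A] [Module.Finite k A] [Nontrivial A] (ε : ℝ),
      0 < ε → Tendsto (growthRatio k A ε) atTop (𝓝 0),
    ∀ (A B : Type u) [CommRing A] [Algebra k A] [Module.Finite k A] [Nontrivial A]
      [CommRing B] [Algebra k B] [Module.Finite k B] [Nontrivial B],
      growth k (A ⊗[k] B) = growth k A * growth k B,
    ∀ (A B : Type u) [CommRing A] [Algebra k A] [Module.Finite k A] [Nontrivial A]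
      [CommRing B] [Algebra k B] [Module.Finite k B] [Nontrivial B],
      growth k (A × B) = growth k A + growth k B] := by
  tfae_have 1 → 2 := by
    intro h A B _ _ _ _ _ _ _ _
    have hA := ((tfae_one HK A).out 0 1).mp (h A)
    have hB := ((tfae_one HK B).out 0 1).mp (h B)
    have hnt : Nontrivial (A ⊗[k] B) := nontrivial_tensor A B
    have hAB := ((tfae_one HK (A ⊗[k] B)).out 0 1).mp (h (A ⊗[k] B))
    rw [hA, hB, hAB, Module.finrank_tensorProduct]
    push_cast
    rfl
  tfae_have 1 → 3 := by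
    intro h A B _ _ _ _ _ _ _ _
    have hA := ((tfae_one HK A).out 0 1).mp (h A)
    have hB := ((tfae_one HK B).out 0 1).mp (h B)
    have hAB := ((tfae_one HK (A × B)).out 0 1).mp (h (A × B))
    rw [hA, hB, hAB, Module.finrank_prod]
    push_cast
    rfl
  tfae_have 2 → 1 := by
    intro h A _ _ _ _
    have h1 := (tfae_one HK A).out 2 0
    refine h1.mp ?_
    intro Z _ _ _ hZ
    have := IsSmoothable.finite hZ
    rw [h A Z, growth_of_smoothable hZ]
  tfae_have 3 → 1 := by
    intro h A _ _ _ _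
    have h1 := (tfae_one HK A).out 3 0
    refine h1.mp ?_
    intro Z _ _ _ hZ
    have := IsSmoothable.finite hZ
    rw [h A Z, growth_of_smoothable hZ]
  tfae_finish

end main

end Pool.Agent.H12.CX
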