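import Pool.Agent.H12.CX.Growth

/-!
# The growth of a disjoint union with a scheme which is good for products
-/

open TensorProduct Module Filter Topology

namespace Pool.Agent.H12.CX

open Pool.Agent.H12.Defect Pool.Agent.H15.Defect Pool.Agent.H14.RF Pool.Agent.H14.MM

universe u

section pairs

variable {k : Type u} [Field k] {A B : Type u} [CommRing A] [Algebra k A] [CommRing B]
  [Algebra k B]

theorem dle_pair_succ {s t N M : ℕ} (h0 : Dle k (A ⊗[k] B) N)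
    (h : Dle k ((⨂[k] _ : Fin s, A) ⊗[k] (⨂[k] _ : Fin t, B)) M) :
    Dle k ((⨂[k] _ : Fin (s + 1), A) ⊗[k] (⨂[k] _ : Fin (t + 1), B)) (N * M) := by
  have h1 : Dle k ((A ⊗[k] (⨂[k] _ : Fin s, A)) ⊗[k] (B ⊗[k] (⨂[k] _ : Fin t, B))) (N * M) :=
    (h0.tensor h).of_equiv (Algebra.TensorProduct.tensorTensorTensorComm k k k k A B
      (⨂[k] _ : Fin s, A) (⨂[k] _ : Fin t, B))
  exact h1.of_surjective (Algebra.TensorProduct.map (consHom k A s) (consHom k B t))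
    (TensorProduct.map_surjective (consHom_surjective s) (consHom_surjective t))

theorem dle_zero_pow {A : Type u} [CommRing A] [Algebra k A] :
    Dle k (⨂[k] _ : Fin 0, A) 1 :=
  (dle_self k).of_surjective (Algebra.ofId k _) fun z => exists_eq_algebraMap z

theorem dle_pair_right {N z : ℕ} (h0 : Dle k (A ⊗[k] B) N) (hB : Dle k B z) (s r : ℕ) :
    Dle k ((⨂[k] _ : Fin s, A) ⊗[k] (⨂[k] _ : Fin (r + s), B)) (N ^ s * z ^ r) := by
  induction s with
  | zero =>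
    have h1 := (dle_zero_pow (k := k) (A := A)).tensor (hB.pow r)
    simpa using h1
  | succ s ih =>
    have h1 := dle_pair_succ h0 ih
    have h2 : N * (N ^ s * z ^ r) = N ^ (s + 1) * z ^ r := by ring
    rw [h2] at h1
    exact h1

theorem dle_pair_left {N D : ℕ} (h0 : Dle k (A ⊗[k] B) N) (hA : Dle k A D) (t r : ℕ) :
    Dle k ((⨂[k] _ : Fin (r + t), A) ⊗[k] (⨂[k] _ : Fin t, B)) (N ^ t * D ^ r) := by
  induction t with
  | zero =>
    have h1 := (hA.pow r).tensor (dle_zero_pow (k := k) (A := B))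
    simpa using h1
  | succ t ih =>
    have h1 := dle_pair_succ h0 ih
    have h2 : N * (N ^ t * D ^ r) = N ^ (t + 1) * D ^ r := by ring
    rw [h2] at h1
    exact h1

/-- Both cases. -/
theorem dle_pair {N z D : ℕ} (h0 : Dle k (A ⊗[k] B) N) (hA : Dle k A D) (hB : Dle k B z)
    (hz : 0 < z) (hN : D ^ 2 ≤ N) (s t : ℕ) :
    ∃ M : ℕ, Dle k ((⨂[k] _ : Fin s, A) ⊗[k] (⨂[k] _ : Fin t, B)) M ∧
      (M : ℝ) ≤ ((N : ℝ) / z) ^ s * (z : ℝ) ^ t + Real.sqrt N ^ s * Real.sqrt N ^ t := by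
  have hz0 : (0 : ℝ) < z := by exact_mod_cast hz
  have hsq : Real.sqrt N * Real.sqrt N = N := Real.mul_self_sqrt (Nat.cast_nonneg _)
  have hsq0 : 0 ≤ Real.sqrt N := Real.sqrt_nonneg _
  rcases le_total s t with hst | hst
  · obtain ⟨r, rfl⟩ : ∃ r, t = r + s := ⟨t - s, by omega⟩
    refine ⟨_, dle_pair_right h0 hB s r, ?_⟩
    push_cast
    have h1 : ((N : ℝ) / z) ^ s * (z : ℝ) ^ (r + s) = (N : ℝ) ^ s * (z : ℝ) ^ r := by
      rw [div_pow, pow_add]
      field_simp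
    rw [h1]
    have h2 : 0 ≤ Real.sqrt N ^ s * Real.sqrt N ^ (r + s) := by positivity
    linarith
  · obtain ⟨r, rfl⟩ : ∃ r, s = r + t := ⟨s - t, by omega⟩
    refine ⟨_, dle_pair_left h0 hA t r, ?_⟩
    push_cast
    have h1 : (D : ℝ) ≤ Real.sqrt N := by
      apply Real.le_sqrt_of_sq_le
      exact_mod_cast hN
    have h2 : (D : ℝ) ^ r ≤ Real.sqrt N ^ r := pow_le_pow_left₀ (Nat.cast_nonneg _) h1 r
    have h3 : Real.sqrt N ^ (r + t) * Real.sqrt N ^ t = (N : ℝ) ^ t * Real.sqrt N ^ r := by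
      rw [pow_add]
      calc Real.sqrt N ^ r * Real.sqrt N ^ t * Real.sqrt N ^ t =
            Real.sqrt N ^ r * (Real.sqrt N * Real.sqrt N) ^ t := by rw [mul_pow]; ring
        _ = _ := by rw [hsq]; ring
    rw [h3]
    have h4 : 0 ≤ ((N : ℝ) / z) ^ (r + t) * (z : ℝ) ^ t := by positivity
    have h5 : (N : ℝ) ^ t * (D : ℝ) ^ r ≤ (N : ℝ) ^ t * Real.sqrt N ^ r :=
      mul_le_mul_of_nonneg_left h2 (by positivity)
    linarith

/-- The recursion for a sum of two exponential bounds. -/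
theorem T_bound₂ {a b a' b' : ℝ}
    (h : ∀ s t : ℕ, ∃ M : ℕ, Dle k ((⨂[k] _ : Fin s, A) ⊗[k] (⨂[k] _ : Fin t, B)) M ∧
      (M : ℝ) ≤ a ^ s * b ^ t + a' ^ s * b' ^ t) (n : ℕ) :
    ∀ s t : ℕ, ∃ N : ℕ, Dle k (T k A B s t n) N ∧
      (N : ℝ) ≤ a ^ s * b ^ t * (a + b) ^ n + a' ^ s * b' ^ t * (a' + b') ^ n := by
  induction n with
  | zero =>
    intro s t
    obtain ⟨M, hM, hle⟩ := h s t
    refine ⟨M * 1, hM.tensor dle_zero_pow, ?_⟩
    push_cast
    simpa using hle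
  | succ n ih =>
    intro s t
    obtain ⟨N, hN, hle⟩ := ih (s + 1) t
    obtain ⟨N', hN', hle'⟩ := ih s (t + 1)
    refine ⟨N + N', dle_T_succ hN hN', ?_⟩
    push_cast
    calc (N : ℝ) + N' ≤ _ := add_le_add hle hle'
      _ = _ := by ring

theorem dle_of_T {n N : ℕ} (h : Dle k (T k A B 0 0 n) N) : Dle k (⨂[k] _ : Fin n, A × B) N := by
  refine h.of_surjective (Algebra.TensorProduct.productMap
    ((Algebra.ofId k (⨂[k] _ : Fin n, A × B)).comp (Algebra.TensorProduct.productMap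
      (prodHom (B := k) (fun i : Fin 0 => i.elim0)) (prodHom (B := k) (fun i : Fin 0 => i.elim0))))
      (AlgHom.id k _)) ?_
  intro z
  refine ⟨1 ⊗ₜ z, ?_⟩
  rw [Algebra.TensorProduct.productMap_apply_tmul, map_one, one_mul]
  rfl

/-- The growth of a disjoint union. -/
theorem bd_union {N z D : ℕ} (h0 : Dle k (A ⊗[k] B) N) (hA : Dle k A D) (hB : Dle k B z)
    (hz : 0 < z) (hN : D ^ 2 ≤ N) : Bd k (A × B) ((N : ℝ) / z + z) := by
  intro ρ hρ
  have hz0 : (0 : ℝ) < z := by exact_mod_cast hz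
  have hsq : Real.sqrt N * Real.sqrt N = N := Real.mul_self_sqrt (Nat.cast_nonneg _)
  have hsq0 : 0 ≤ Real.sqrt N := Real.sqrt_nonneg _
  have h1 : Real.sqrt N + Real.sqrt N ≤ (N : ℝ) / z + z := by
    rw [div_add' _ _ _ hz0.ne', le_div_iff₀ hz0]
    nlinarith [sq_nonneg (Real.sqrt N - z)]
  have h2 : 0 ≤ (N : ℝ) / z + z := by positivity
  refine ⟨2, fun n => ?_⟩
  obtain ⟨M, hM, hle⟩ := T_bound₂ (dle_pair h0 hA hB hz hN) n 0 0
  refine ⟨M, dle_of_T hM, hle.trans ?_⟩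
  simp only [pow_zero, one_mul]
  have h3 : ((N : ℝ) / z + z) ^ n ≤ ρ ^ n := pow_le_pow_left₀ h2 hρ.le n
  have h4 : (Real.sqrt N + Real.sqrt N) ^ n ≤ ((N : ℝ) / z + z) ^ n :=
    pow_le_pow_left₀ (by positivity) h1 n
  linarith

end pairs

end Pool.Agent.H12.CX
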